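import Pool.Agent.H65.SquierC
import Pool.Agent.H65.DimDefs

namespace Pool.Agent.Results.MP_07d80f_al.CdEqAd

open Pool.Agent.H65.Squier Pool.Agent.H65.Coh

/-- The cohomological dimension of every diagram group equals its algebraic dimension. -/
theorem result (A : Type) (R : Set (List A × List A)) (hR : ∀ r ∈ R, r.1 ≠ [] ∧ r.2 ≠ [])
    (w : Vtx R) : cd (DiagramGroup R w) = ad (DiagramGroup R w) := by
  refine le_antisymm (iSup₂_le fun n ⟨M, hM⟩ => ?_) (iSup₂_le fun n ⟨f, hf⟩ =>
    le_iSup₂_of_le (f := fun (n : ℕ) (_ : ∃ M : Rep.{0} ℤ _, Nontrivial (groupCohomology M n)) =>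
      (n : ℕ∞)) n (of_inj f hf) le_rfl)
  induction h : ad (DiagramGroup R w) using ENat.recTopCoe with
  | top => exact le_top
  | coe k =>
    refine Nat.cast_le.2 (not_lt.1 fun hk => not_subsingleton _
      (ModuleCat.isZero_iff_subsingleton.1 (cd_le hR w k (fun m hm => ?_) M n hk)))
    exact Nat.cast_le.1 ((le_iSup₂_of_le (f := fun (n : ℕ) (_ : ∃ f : Multiplicative
      (Fin n → ℤ) →* DiagramGroup R w, Function.Injective f) => (n : ℕ∞)) m hm le_rfl).trans_eq h)

end Pool.Agent.Results.MP_07d80f_al.CdEqAd
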